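import Pool.Agent.W203.WS.Stm

/-! Task WS-EE: the average of the error. -/

set_option autoImplicit false

open MeasureTheory Finset

namespace Pool.Agent.W563.WS

open Pool.Agent.W203.WS

theorem norm_e (x : ℝ) : ‖e x‖ = 1 := by
  unfold e
  have h : 2 * (Real.pi : ℂ) * Complex.I * (x : ℂ) = ((2 * Real.pi * x : ℝ) : ℂ) * Complex.I := by
    push_cast
    ring
  rw [h, Complex.norm_exp_ofReal_mul_I]

theorem continuous_e : Continuous e := by
  unfold e
  exact Complex.continuous_exp.comp (continuous_const.mul Complex.continuous_ofReal)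

theorem norm_S (k P : ℕ) (t θ : ℝ) : ‖S k P t θ‖ ≤ 3 * P := by
  unfold S
  refine (norm_sum_le _ _).trans ?_
  simp only [norm_e, Finset.sum_const, Nat.card_Ico, nsmul_eq_mul, mul_one]
  rw [Nat.cast_sub (by omega)]
  push_cast
  linarith

theorem continuous_S (k P : ℕ) : Continuous (fun p : ℝ × ℝ => S k P p.1 p.2) := by
  unfold S
  refine continuous_finsetSum _ fun x _ => continuous_e.comp ?_
  fun_prop

theorem norm_J1 (k P : ℕ) (t : ℝ) : ‖J1 k P t‖ ≤ 3 * P := by
  unfold J1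
  have h := intervalIntegral.norm_integral_le_of_norm_le_const (a := (P : ℝ)) (b := 4 * P)
    (f := fun u => e (t * u ^ k)) (C := 1) (fun x _ => (norm_e _).le)
  refine h.trans ?_
  have hP : (0 : ℝ) ≤ P := Nat.cast_nonneg P
  rw [abs_of_nonneg (by linarith)]
  linarith

theorem continuous_J1 (k P : ℕ) : Continuous (J1 k P) := by
  unfold J1
  refine intervalIntegral.continuous_parametric_intervalIntegral_of_continuous' ?_ _ _
  refine continuous_e.comp ?_
  fun_prop

theorem Kh_nonneg {ε : ℝ} (hε : 0 < ε) (t : ℝ) : 0 ≤ Kh ε t := by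
  unfold Kh
  positivity

theorem continuous_Kh (ε : ℝ) : Continuous (Kh ε) := by
  unfold Kh
  fun_prop

theorem integrable_Kh {ε : ℝ} (hε : 0 < ε) : Integrable (Kh ε) := by
  have h := (integrable_exp_neg_mul_sq (b := Real.pi * ε ^ 2) (by positivity)).const_mul ε
  refine h.congr (Filter.Eventually.of_forall fun t => ?_)
  unfold Kh
  simp only
  congr 2
  ring

theorem vol_cube (s : ℕ) : volume (cube s) = 1 := by
  unfold cube
  rw [volume_pi_pi]
  simp

theorem meas_cube (s : ℕ) : MeasurableSet (cube s) := by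
  unfold cube
  exact MeasurableSet.univ_pi fun _ => measurableSet_Icc

instance (s : ℕ) : IsFiniteMeasure ((volume : Measure (Fin s → ℝ)).restrict (cube s)) :=
  ⟨by rw [Measure.restrict_apply_univ, vol_cube]; exact ENNReal.one_lt_top⟩

/-- the integrand -/
noncomputable def G (k s P : ℕ) (ε : ℝ) (p : ℝ × (Fin s → ℝ)) : ℝ :=
  Kh ε p.1 * ‖(∏ i, S k P p.1 (p.2 i)) - J1 k P p.1 ^ s‖

theorem continuous_G (k s P : ℕ) (ε : ℝ) : Continuous (G k s P ε) := by
  unfold G
  refine ((continuous_Kh ε).comp continuous_fst).mul (Continuous.norm (Continuous.sub ?_ ?_))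
  · refine continuous_finsetProd _ fun i _ => ?_
    exact (continuous_S k P).comp (continuous_fst.prodMk ((continuous_apply i).comp continuous_snd))
  · exact ((continuous_J1 k P).comp continuous_fst).pow s

theorem G_le (k s P : ℕ) {ε : ℝ} (hε : 0 < ε) (p : ℝ × (Fin s → ℝ)) :
    ‖G k s P ε p‖ ≤ Kh ε p.1 * (2 * (3 * (P : ℝ)) ^ s) := by
  unfold G
  rw [norm_mul, norm_norm, Real.norm_of_nonneg (Kh_nonneg hε _)]
  refine mul_le_mul_of_nonneg_left ?_ (Kh_nonneg hε _)
  refine (norm_sub_le _ _).trans ?_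
  have h1 : ‖∏ i, S k P p.1 (p.2 i)‖ ≤ (3 * (P : ℝ)) ^ s := by
    rw [norm_prod]
    refine (Finset.prod_le_prod (fun i _ => norm_nonneg _) (fun i _ => norm_S k P _ _)).trans ?_
    simp
  have h2 : ‖J1 k P p.1 ^ s‖ ≤ (3 * (P : ℝ)) ^ s := by
    rw [norm_pow]
    exact pow_le_pow_left₀ (norm_nonneg _) (norm_J1 k P _) s
  linarith

theorem integrable_G (k s P : ℕ) {ε : ℝ} (hε : 0 < ε) (T : Set ℝ) :
    Integrable (G k s P ε) ((volume.restrict T).prod (volume.restrict (cube s))) := by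
  have h1 : Integrable (fun p : ℝ × (Fin s → ℝ) => Kh ε p.1 * (2 * (3 * (P : ℝ)) ^ s))
      ((volume.restrict T).prod (volume.restrict (cube s))) :=
    Integrable.mul_prod (f := Kh ε) (g := fun _ => 2 * (3 * (P : ℝ)) ^ s)
      ((integrable_Kh hε).restrict) (integrable_const _)
  exact h1.mono' (continuous_G k s P ε).aestronglyMeasurable
    (Filter.Eventually.of_forall fun p => G_le k s P hε p)

theorem integrable_Gt (k s P : ℕ) {ε : ℝ} (hε : 0 < ε) (θ : Fin s → ℝ) :
    Integrable (fun t => G k s P ε (t, θ)) := by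
  have h1 : Integrable (fun t : ℝ => Kh ε t * (2 * (3 * (P : ℝ)) ^ s)) :=
    (integrable_Kh hε).mul_const _
  refine h1.mono' ?_ (Filter.Eventually.of_forall fun p => G_le k s P hε (p, θ))
  exact ((continuous_G k s P ε).comp (continuous_id.prodMk continuous_const)).aestronglyMeasurable

/-- the mean square -/
noncomputable def am (k P : ℕ) (t : ℝ) : ℝ := ∫ θ in (0 : ℝ)..1, ‖S k P t θ‖ ^ 2

theorem am_nonneg (k P : ℕ) (t : ℝ) : 0 ≤ am k P t :=
  intervalIntegral.integral_nonneg zero_le_one fun _ _ => by positivity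

theorem am_le (k P : ℕ) (t : ℝ) : am k P t ≤ (3 * (P : ℝ)) ^ 2 := by
  unfold am
  have h := intervalIntegral.norm_integral_le_of_norm_le_const (a := (0 : ℝ)) (b := 1)
    (f := fun θ => ‖S k P t θ‖ ^ 2) (C := (3 * (P : ℝ)) ^ 2) (fun x _ => by
      rw [norm_pow, norm_norm]
      exact pow_le_pow_left₀ (norm_nonneg _) (norm_S k P _ _) 2)
  have h2 := (le_abs_self _).trans h
  simpa using h2

theorem continuous_am (k P : ℕ) : Continuous (am k P) := by
  unfold am
  refine intervalIntegral.continuous_parametric_intervalIntegral_of_continuous' ?_ _ _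
  exact ((continuous_S k P).norm.pow 2)

theorem integrable_am (k s P : ℕ) {ε : ℝ} (hε : 0 < ε) :
    Integrable (fun t => Kh ε t * (am k P t) ^ ((s : ℝ) / 2)) := by
  have h1 : Integrable (fun t : ℝ => Kh ε t * ((3 * (P : ℝ)) ^ 2) ^ ((s : ℝ) / 2)) :=
    (integrable_Kh hε).mul_const _
  refine h1.mono' ?_ (Filter.Eventually.of_forall fun t => ?_)
  · refine Continuous.aestronglyMeasurable ((continuous_Kh ε).mul ?_)
    exact (continuous_am k P).rpow_const fun _ => Or.inr (by positivity)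
  · rw [norm_mul, Real.norm_of_nonneg (Kh_nonneg hε _),
      Real.norm_of_nonneg (Real.rpow_nonneg (am_nonneg k P t) _)]
    refine mul_le_mul_of_nonneg_left ?_ (Kh_nonneg hε _)
    exact Real.rpow_le_rpow (am_nonneg k P t) (am_le k P t) (by positivity)

theorem t_EE (h1 : S_R1) (h2 : S_R2) (h3 : S_AV) : S_EE := by
  intro k s hk hs
  obtain ⟨C1, hC1, H1⟩ := h1 k s hk hs
  obtain ⟨C2, hC2, H2⟩ := h2 k s hk hs
  refine ⟨C1 + 2 * C2, by positivity, fun P ε hP hε hε1 => ?_⟩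
  have hG := integrable_G k s P hε Set.univ
  rw [Measure.restrict_univ] at hG
  have hEr : IntegrableOn (fun θ => Er k s P ε θ) (cube s) := hG.integral_prod_right
  refine ⟨hEr, ?_⟩
  set T := Set.Icc (-T0 k P) (T0 k P) with hT
  have hA := (integrable_G k s P hε T).integral_prod_right
  have hB := (integrable_G k s P hε Tᶜ).integral_prod_right
  have hsplit : ∀ θ, Er k s P ε θ =
      (∫ t in T, G k s P ε (t, θ)) + ∫ t in Tᶜ, G k s P ε (t, θ) :=
    fun θ => (integral_add_compl measurableSet_Icc (integrable_Gt k s P hε θ)).symm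
  have e1 : ∫ θ in cube s, Er k s P ε θ = (∫ θ in cube s, ∫ t in T, G k s P ε (t, θ)) +
      ∫ θ in cube s, ∫ t in Tᶜ, G k s P ε (t, θ) := by
    rw [← integral_add hA hB]
    exact integral_congr_ae (Filter.Eventually.of_forall fun θ => hsplit θ)
  have e2 : ∫ θ in cube s, ∫ t in T, G k s P ε (t, θ) ≤ C1 * ε * (P : ℝ) ^ ((s : ℝ) - 1 - k) := by
    have h4 : ∫ θ in cube s, ∫ t in T, G k s P ε (t, θ) ≤
        ∫ θ in cube s, C1 * ε * (P : ℝ) ^ ((s : ℝ) - 1 - k) :=
      setIntegral_mono_on hA (integrable_const _) (meas_cube s)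
        (fun θ hθ => H1 P ε θ hP hε hε1 hθ)
    refine h4.trans (le_of_eq ?_)
    rw [setIntegral_const, Measure.real, vol_cube]
    simp
  have e3 : ∫ θ in cube s, ∫ t in Tᶜ, G k s P ε (t, θ) =
      ∫ t in Tᶜ, ∫ θ in cube s, G k s P ε (t, θ) :=
    (integral_integral_swap (f := fun t θ => G k s P ε (t, θ))
      (integrable_G k s P hε Tᶜ)).symm
  have e4 : ∫ t in Tᶜ, ∫ θ in cube s, G k s P ε (t, θ) ≤
      ∫ t in Tᶜ, 2 * (Kh ε t * (am k P t) ^ ((s : ℝ) / 2)) := by
    refine integral_mono (integrable_G k s P hε Tᶜ).integral_prod_left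
      (((integrable_am k s P hε).restrict).const_mul 2) fun t => ?_
    show ∫ θ in cube s, Kh ε t * ‖(∏ i, S k P t (θ i)) - J1 k P t ^ s‖ ≤ _
    rw [integral_const_mul]
    refine (mul_le_mul_of_nonneg_left (h3 k s P t (by omega)) (Kh_nonneg hε t)).trans
      (le_of_eq ?_)
    show Kh ε t * (2 * (am k P t) ^ ((s : ℝ) / 2)) = 2 * (Kh ε t * (am k P t) ^ ((s : ℝ) / 2))
    ring
  have e5 : ∫ t in Tᶜ, 2 * (Kh ε t * (am k P t) ^ ((s : ℝ) / 2)) ≤
      2 * (C2 * (ε * (P : ℝ) ^ ((s : ℝ) - k - 1 / 2) + (P : ℝ) ^ ((s : ℝ) / 2))) := by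
    rw [integral_const_mul]
    exact mul_le_mul_of_nonneg_left (H2 P ε hP hε hε1) (by norm_num)
  have hP1 : (1 : ℝ) ≤ P := by exact_mod_cast hP
  have e6 : (P : ℝ) ^ ((s : ℝ) - 1 - k) ≤ (P : ℝ) ^ ((s : ℝ) - k - 1 / 2) :=
    Real.rpow_le_rpow_of_exponent_le hP1 (by linarith)
  have e7 : 0 ≤ (P : ℝ) ^ ((s : ℝ) / 2) := by positivity
  have e8 : C1 * ε * (P : ℝ) ^ ((s : ℝ) - 1 - k) ≤ C1 * ε * (P : ℝ) ^ ((s : ℝ) - k - 1 / 2) :=
    mul_le_mul_of_nonneg_left e6 (by positivity)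
  have e9 : 0 ≤ C1 * (P : ℝ) ^ ((s : ℝ) / 2) := by positivity
  rw [e1, e3]
  calc _ ≤ C1 * ε * (P : ℝ) ^ ((s : ℝ) - k - 1 / 2) +
        2 * (C2 * (ε * (P : ℝ) ^ ((s : ℝ) - k - 1 / 2) + (P : ℝ) ^ ((s : ℝ) / 2))) :=
        add_le_add (e2.trans e8) (e4.trans e5)
    _ ≤ _ := by
      nlinarith [e9]

end Pool.Agent.W563.WS
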